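import Pool.Agent.Q148.PS.All

set_option autoImplicit false

/-!
# Almost prime congruent numbers of the classes `5, 6, 7` modulo `8` in almost all short intervals

Let `θ > 11/21`.  There are `R` and `δ > 0` such that for all `M` and `K` the interval
`[x, x + x ^ θ]` contains, for all but `O (X ^ (1 - δ))` of the `x ≤ X` and for every squarefree
`k ≤ K` of the classes `5, 6, 7` modulo `8`, a squarefree congruent number `k m` with `m ≡ 1` modulo
`8 M`, where `m` has at most `R` prime factors, all at least `x ^ (1 / R)`.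

Proof.  With `v = k W ^ 2 t ^ 2` and `u ≡ 1` modulo `W` the number `k u (u ^ 2 - v ^ 2)` is
congruent.  For `t ∈ (T, 2 T]`, `T` about `x ^ (1/7)`, let `g_t (ξ)` be the approximate inverse
function of `u ↦ u ^ 3 - v ^ 2 u`, `ξ = (x / k) ^ (1/3)`.  The numbers `g_t (ξ)` near integers
`u ≡ 1` modulo `W` are counted with a power of the Fejér kernel, and sifted: the condition
`d ∣ u (u ^ 2 - v ^ 2)` is detected by Fejér kernels in the residue classes modulo `d`, which turns
the sifted count into exponential sums in `g_t (ξ)` with frequencies `h / (d W)`; its variance in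
`ξ` is estimated by the first and second derivative tests.  The lower bound sieve weights are those
of the fundamental lemma.  The values divisible by the square of a large prime are removed by
counting.
-/

namespace Pool.Agent.Results.MP_8efaaa_nt.AlmostPrimesAlmostAllIntervals

/-- `x² + a y² = z²`, `x² - a y² = t²` is solvable in positive integers -/
def Congruent (a : ℕ) : Prop :=
  ∃ x y z t : ℕ, 0 < x ∧ 0 < y ∧ 0 < z ∧ 0 < t ∧ x ^ 2 + a * y ^ 2 = z ^ 2 ∧
    x ^ 2 = a * y ^ 2 + t ^ 2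

lemma congruent_of (n : ℕ) (h : Pool.Agent.Q148.CN.Cong n) : Congruent n := by
  obtain ⟨a, b, c, ha, hb, hc, h1, h2⟩ := h
  -- common denominator
  obtain ⟨A, B, C, D, hA, hB, hC, hD, eA, eB, eC⟩ : ∃ A B C D : ℕ, 0 < A ∧ 0 < B ∧ 0 < C ∧
      0 < D ∧ a = (A : ℚ) / D ∧ b = (B : ℚ) / D ∧ c = (C : ℚ) / D := by
    have na : (0 : ℤ) < a.num := Rat.num_pos.2 ha
    have nb : (0 : ℤ) < b.num := Rat.num_pos.2 hb
    have nc : (0 : ℤ) < c.num := Rat.num_pos.2 hc
    have ea : ((a.num.natAbs : ℕ) : ℚ) = a.num := by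
      rw [Nat.cast_natAbs, abs_of_pos na]
    have eb : ((b.num.natAbs : ℕ) : ℚ) = b.num := by
      rw [Nat.cast_natAbs, abs_of_pos nb]
    have ec : ((c.num.natAbs : ℕ) : ℚ) = c.num := by
      rw [Nat.cast_natAbs, abs_of_pos nc]
    have da : (a.den : ℚ) ≠ 0 := by exact_mod_cast a.den_nz
    have db : (b.den : ℚ) ≠ 0 := by exact_mod_cast b.den_nz
    have dc : (c.den : ℚ) ≠ 0 := by exact_mod_cast c.den_nz
    have qa := Rat.num_div_den a
    have qb := Rat.num_div_den b
    have qc := Rat.num_div_den c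
    refine ⟨a.num.natAbs * (b.den * c.den), b.num.natAbs * (a.den * c.den),
      c.num.natAbs * (a.den * b.den), a.den * b.den * c.den, ?_, ?_, ?_, ?_, ?_, ?_, ?_⟩
    · have := a.pos; have := b.pos; have := c.pos
      have : 0 < a.num.natAbs := by omega
      positivity
    · have := a.pos; have := b.pos; have := c.pos
      have : 0 < b.num.natAbs := by omega
      positivity
    · have := a.pos; have := b.pos; have := c.pos
      have : 0 < c.num.natAbs := by omega
      positivity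
    · have := a.pos; have := b.pos; have := c.pos
      positivity
    · push_cast
      rw [ea]
      nth_rewrite 1 [← qa]
      field_simp
    · push_cast
      rw [eb]
      nth_rewrite 1 [← qb]
      field_simp
    · push_cast
      rw [ec]
      nth_rewrite 1 [← qc]
      field_simp
  have hDq : (D : ℚ) ≠ 0 := by positivity
  rw [eA, eB, eC] at h1
  rw [eA, eB] at h2
  have g1 : A ^ 2 + B ^ 2 = C ^ 2 := by
    have : (A : ℚ) ^ 2 + (B : ℚ) ^ 2 = (C : ℚ) ^ 2 := by
      field_simp at h1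
      exact h1
    exact_mod_cast this
  have g2 : 2 * n * D ^ 2 = A * B := by
    have : 2 * (n : ℚ) * (D : ℚ) ^ 2 = A * B := by
      field_simp at h2
      linarith
    exact_mod_cast this
  have hne : A ≠ B := by
    intro hAB
    rw [hAB] at g1
    have g3 : (2 : ℕ) * B ^ 2 = C ^ 2 := by omega
    have h4 : Irrational (Real.sqrt 2) := irrational_sqrt_two
    apply h4
    refine ⟨(C : ℚ) / B, ?_⟩
    have hB' : (B : ℝ) ≠ 0 := by positivity
    push_cast
    symm
    rw [Real.sqrt_eq_iff_mul_self_eq (by norm_num) (by positivity)]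
    have : (2 : ℝ) * (B : ℝ) ^ 2 = (C : ℝ) ^ 2 := by exact_mod_cast g3
    field_simp
    linarith
  rcases lt_or_gt_of_ne hne with hlt | hlt
  · obtain ⟨s, rfl⟩ := Nat.exists_eq_add_of_lt hlt
    refine ⟨C, 2 * D, 2 * A + s + 1, s + 1, hC, by positivity, by positivity, by positivity, ?_, ?_⟩
    · nlinarith
    · nlinarith
  · obtain ⟨s, rfl⟩ := Nat.exists_eq_add_of_lt hlt
    refine ⟨C, 2 * D, 2 * B + s + 1, s + 1, hC, by positivity, by positivity, by positivity, ?_, ?_⟩
    · nlinarith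
    · nlinarith

/-- **Almost prime congruent numbers of the classes `5, 6, 7` modulo `8` in almost all short
intervals.**  For every real `θ > 11/21` there are `R` and `δ > 0` such that for all integers `M ≥ 1`
and `K ≥ 0` there is `C` such that for all real `X ≥ 1`, for all but at most `C X ^ (1 - δ)` natural
numbers `x ≤ X` the following holds: for every squarefree `k ≤ K` with `k ≡ 5, 6` or `7` modulo `8`
there is `m ≡ 1` modulo `8 M` such that `k m` is a squarefree congruent number in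
`[x, x + x ^ θ]`, `m` has at most `R` prime factors (with multiplicity) and `p ^ R ≥ x` for every
prime factor `p` of `m`; and `k m` is of the same class modulo `8` as `k`. -/
theorem result (θ : ℝ) (hθ : 11 / 21 < θ) : ∃ R : ℕ, ∃ δ : ℝ, 0 < δ ∧ ∀ M K : ℕ, 1 ≤ M →
    ∃ C : ℝ, ∀ X : ℝ, 1 ≤ X →
      ({x : ℕ | (x : ℝ) ≤ X ∧ ¬ ∀ k : ℕ, k ≤ K → Squarefree k →
        (k % 8 = 5 ∨ k % 8 = 6 ∨ k % 8 = 7) →
        ∃ m : ℕ, m ≡ 1 [MOD 8 * M] ∧ x ≤ k * m ∧ ((k * m : ℕ) : ℝ) ≤ x + (x : ℝ) ^ θ ∧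
          Squarefree (k * m) ∧ (k * m) % 8 = k % 8 ∧ Congruent (k * m) ∧
          m.primeFactorsList.length ≤ R ∧
          ∀ p : ℕ, p.Prime → p ∣ m → x ≤ p ^ R}.ncard : ℝ) ≤ C * X ^ (1 - δ) := by
  obtain ⟨R, δ, hδ, h⟩ := Pool.Agent.Q148.PS.main2 θ hθ
  refine ⟨R, δ, hδ, ?_⟩
  intro M K hM
  obtain ⟨C, hC⟩ := h (8 * M) K (by omega)
  refine ⟨C, ?_⟩
  intro X hX
  refine le_trans ?_ (hC X hX)
  have hfin : {x : ℕ | (x : ℝ) ≤ X ∧ ¬ ∀ B ≤ K, Squarefree B →
      Pool.Agent.Q148.PS.PK2 B (8 * M) R θ x}.Finite := by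
    apply (Set.finite_Iic ⌊X⌋₊).subset
    intro x hx
    exact Nat.le_floor hx.1
  have hsub : {x : ℕ | (x : ℝ) ≤ X ∧ ¬ ∀ k : ℕ, k ≤ K → Squarefree k →
        (k % 8 = 5 ∨ k % 8 = 6 ∨ k % 8 = 7) →
        ∃ m : ℕ, m ≡ 1 [MOD 8 * M] ∧ x ≤ k * m ∧ ((k * m : ℕ) : ℝ) ≤ x + (x : ℝ) ^ θ ∧
          Squarefree (k * m) ∧ (k * m) % 8 = k % 8 ∧ Congruent (k * m) ∧
          m.primeFactorsList.length ≤ R ∧
          ∀ p : ℕ, p.Prime → p ∣ m → x ≤ p ^ R} ⊆
      {x : ℕ | (x : ℝ) ≤ X ∧ ¬ ∀ B ≤ K, Squarefree B →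
        Pool.Agent.Q148.PS.PK2 B (8 * M) R θ x} := by
    intro x hx
    refine ⟨hx.1, ?_⟩
    intro h1
    apply hx.2
    intro k hkK hk _
    obtain ⟨m, h2, h3, h4, h5, h6, h7, h8⟩ := h1 k hkK hk
    have h9 : m ≡ 1 [MOD 8] := h2.of_dvd (Dvd.intro M rfl)
    have h10 : (k * m) % 8 = k % 8 := by
      have h11 : k * m ≡ k * 1 [MOD 8] := h9.mul_left k
      rw [mul_one] at h11
      exact h11
    exact ⟨m, h2, h7, h8, h3, h10, congruent_of (k * m) h4, h5, h6⟩
  exact_mod_cast Set.ncard_le_ncard hsub hfin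

end Pool.Agent.Results.MP_8efaaa_nt.AlmostPrimesAlmostAllIntervals
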