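import Pool.Agent.Results.MP_8efaaa_nt.AlmostPrimesAlmostAllIntervals
import Pool.Agent.Q138.PS.XD

/-!
# Almost prime congruent numbers of the classes `5, 6, 7` modulo `8` in the short intervals next to `c n ^ j α ^ n`

Let `θ > 11/21`.  There are `R` and `0 < δ ≤ 1` such that for every `l < 1` and all real `α > 1` outside one set of Hausdorff
dimension at most `(1 - δ) / (1 - l)` (so for almost all `α`, if `l < δ`), all `M`, `K`, all algebraic `c > 0`, all integers `j`, all real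
`D` and all large `n`: for EVERY natural `x` with `|x - c n ^ j α ^ n| ≤ D (c n ^ j α ^ n) ^ l` and for every squarefree `k ≤ K` of the
classes `5, 6, 7` modulo `8` the interval `[x, x + x ^ θ]` contains a squarefree congruent number `k m` with `m ≡ 1` modulo
`8 M`, where `m` has at most `R` prime factors, all at least `x ^ (1 / R)`.

Input: the count of the exceptional `x` in `AlmostPrimesAlmostAllIntervals`.
-/

set_option autoImplicit false

namespace Pool.Agent.Results.MP_8efaaa_nt.AlmostPrimesNearPowers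

open Finset Filter
open Pool.Agent.Q138.PS (NearPow)
open Pool.Agent.Results.MP_8efaaa_nt.AlmostPrimesAlmostAllIntervals (Congruent)

/-- the interval `[x, x + x ^ θ]` contains for every squarefree `k ≤ K` of the classes `5, 6, 7` modulo `8` a squarefree congruent
number `k m`, `m ≡ 1` modulo `8 M`, where `m` has at most `R` prime factors, all at least `x ^ (1 / R)` -/
def Good (θ : ℝ) (R M K x : ℕ) : Prop :=
  ∀ k : ℕ, k ≤ K → Squarefree k → (k % 8 = 5 ∨ k % 8 = 6 ∨ k % 8 = 7) →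
    ∃ m : ℕ, m ≡ 1 [MOD 8 * M] ∧ x ≤ k * m ∧ ((k * m : ℕ) : ℝ) ≤ x + (x : ℝ) ^ θ ∧
      Squarefree (k * m) ∧ (k * m) % 8 = k % 8 ∧ Congruent (k * m) ∧
      m.primeFactorsList.length ≤ R ∧ ∀ p : ℕ, p.Prime → p ∣ m → x ≤ p ^ R

/-- **Theorem.** -/
theorem result (θ : ℝ) (hθ : 11 / 21 < θ) : ∃ (R : ℕ) (δ : ℝ), 0 < δ ∧ δ ≤ 1 ∧ ∀ l : ℝ, l < 1 →
    ∃ E : Set ℝ, dimH E ≤ ENNReal.ofReal ((1 - δ) / (1 - l)) ∧ ∀ α : ℝ, 1 < α → α ∉ E →
      ∀ M K : ℕ, 1 ≤ M → ∀ c : ℝ, 0 < c → IsAlgebraic ℚ c → ∀ (j : ℤ) (D : ℝ), ∀ᶠ n : ℕ in atTop,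
        ∀ x : ℕ, NearPow α c j D l n x → Good θ R M K x := by
  obtain ⟨R, δ, hδ, h⟩ := Pool.Agent.Results.MP_8efaaa_nt.AlmostPrimesAlmostAllIntervals.result θ hθ
  refine ⟨R, min δ 1, lt_min hδ one_pos, min_le_right _ _, fun l hl => ?_⟩
  obtain ⟨E, hE, hg⟩ := Pool.Agent.Q138.PS.pow_alg (fun q : ℕ × ℕ => {x : ℕ | 1 ≤ q.1 ∧ ¬ Good θ R q.1 q.2 x}) (1 - min δ 1) l
    (by linarith [min_le_right δ 1]) hl (fun q ε hε => by
      by_cases hq : 1 ≤ q.1
      · obtain ⟨C, hC⟩ := h q.1 q.2 hq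
        refine ⟨|C|, fun T hT => ?_⟩
        have h1 : ({m : ℕ | m ∈ {x : ℕ | 1 ≤ q.1 ∧ ¬ Good θ R q.1 q.2 x} ∧ (m : ℝ) ≤ T} : Set ℕ) =
            {x : ℕ | (x : ℝ) ≤ T ∧ ¬ Good θ R q.1 q.2 x} := by
          ext x
          constructor
          · rintro ⟨⟨_, h2⟩, h3⟩
            exact ⟨h3, h2⟩
          · rintro ⟨h3, h2⟩
            exact ⟨⟨hq, h2⟩, h3⟩
        rw [h1]
        refine (hC T hT).trans ?_
        calc C * T ^ (1 - δ) ≤ |C| * T ^ (1 - δ) := mul_le_mul_of_nonneg_right (le_abs_self _) (by positivity)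
          _ ≤ |C| * T ^ (1 - min δ 1 + ε) := by
            refine mul_le_mul_of_nonneg_left (Real.rpow_le_rpow_of_exponent_le hT ?_) (abs_nonneg _)
            linarith [min_le_left δ 1]
      · refine ⟨0, fun T hT => ?_⟩
        have h1 : ({m : ℕ | m ∈ {x : ℕ | 1 ≤ q.1 ∧ ¬ Good θ R q.1 q.2 x} ∧ (m : ℝ) ≤ T} : Set ℕ) = ∅ := by
          rw [Set.eq_empty_iff_forall_notMem]
          rintro x ⟨⟨h2, _⟩, _⟩
          exact hq h2
        rw [h1, Set.ncard_empty, Nat.cast_zero, zero_mul])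
  refine ⟨E, hE, fun α hα hαE M K hM c hc hca j D => ?_⟩
  filter_upwards [hg α hα hαE (M, K) c hc hca j D] with n hn x hx
  by_contra hcon
  exact hn x hx ⟨hM, hcon⟩

end Pool.Agent.Results.MP_8efaaa_nt.AlmostPrimesNearPowers
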