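import Pool.Agent.CNC.L

/-!
# Pairs of squarefree congruent numbers `n`, `n + h` in the classes `5, 6, 7` modulo `8`

For every squarefree congruent number `h` and every class `r ∈ {5, 6, 7}` modulo `8` such that the class of
`r + h` is `5`, `6` or `7`, many `n ≡ r` modulo `8` are such that `n` and `n + h` are both squarefree congruent
numbers, in all intervals `[X, X + Y]` with `C X ^ (11 / 12) ≤ Y ≤ X`.
-/

set_option autoImplicit false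

namespace Pool.Agent.Results.MP_8efaaa_nt.GivenDifference

/-- `a` is a congruent number, in the sense of the problem -/
def Congruent (a : ℕ) : Prop :=
  ∃ x y z t : ℕ, 0 < x ∧ 0 < y ∧ 0 < z ∧ 0 < t ∧ x ^ 2 + a * y ^ 2 = z ^ 2 ∧ x ^ 2 = a * y ^ 2 + t ^ 2

/-- one of the three classes modulo `8` of the problem -/
def Class567 (n : ℕ) : Prop := n % 8 = 5 ∨ n % 8 = 6 ∨ n % 8 = 7

/-- `n` satisfies the hypothesis and the conclusion of the problem -/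
def Good (n : ℕ) : Prop := Squarefree n ∧ Class567 n ∧ Congruent n

/-- `n = g q`, where `g ≤ G` and `q` has at most `R` prime factors, counted with multiplicity, all of them
larger than `X ^ (1 / R)` -/
def AlmostPrime (G R : ℕ) (X : ℝ) (n : ℕ) : Prop :=
  ∃ g q : ℕ, n = g * q ∧ g ≤ G ∧ q.primeFactorsList.length ≤ R ∧
    ∀ p : ℕ, p.Prime → p ∣ q → X ^ (1 / (R : ℝ)) < (p : ℝ)

/-- **Every squarefree congruent number `h` is, in many ways and in short intervals, the difference of two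
squarefree congruent numbers of the classes `5, 6, 7` modulo `8`.** -/
theorem result (h : ℕ) (hs : Squarefree h) (hc : Congruent h) (r : ℕ) (hr : r < 8) (hr1 : Class567 r)
    (hr2 : Class567 (r + h)) :
    (∃ C c X₀ : ℝ, 0 < c ∧ ∀ X Y : ℝ, X₀ ≤ X → C * X ^ (11 / 12 : ℝ) ≤ Y → Y ≤ X →
      c * (Y / X ^ (3 / 4 : ℝ)) ≤
        ({n : ℕ | X ≤ n ∧ (n : ℝ) ≤ X + Y ∧ n % 8 = r ∧ Good n ∧ Good (n + h)}.ncard : ℝ)) ∧
    ∃ G : ℕ, ∀ ε : ℝ, 0 < ε → ∃ R : ℕ, 1 ≤ R ∧ ∃ c X₀ : ℝ, 0 < c ∧ ∀ X Y : ℝ, X₀ ≤ X →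
      X ^ (11 / 12 + ε) ≤ Y → Y ≤ X →
        c * (Y / (X ^ (3 / 4 : ℝ) * Real.log X ^ 8)) ≤
          ({n : ℕ | X ≤ n ∧ (n : ℝ) ≤ X + Y ∧ n % 8 = r ∧ Good n ∧ Good (n + h) ∧
            AlmostPrime G R X n ∧ AlmostPrime G R X (n + h)}.ncard : ℝ) := by
  have h4 : ¬ 4 ∣ r := by
    unfold Class567 at hr1
    omega
  have h4' : ¬ 4 ∣ r + h := by
    unfold Class567 at hr2
    omega
  obtain ⟨⟨C, c, X₀, hc0, h1⟩, G, h2⟩ := Pool.Agent.CNC.pairs_main h hs hc r h4 h4'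
  have hgood : ∀ n : ℕ, n % 8 = r % 8 → Squarefree n → Squarefree (n + h) → Pool.Agent.CNC.CongE n →
      Pool.Agent.CNC.CongE (n + h) → n % 8 = r ∧ Good n ∧ Good (n + h) := by
    intro n e1 e2 e3 e4 e5
    unfold Class567 at hr1 hr2
    refine ⟨by omega, ⟨e2, ?_, e4⟩, ⟨e3, ?_, e5⟩⟩
    · unfold Class567
      omega
    · unfold Class567
      omega
  have hfin : ∀ (B : ℝ) (p : ℕ → Prop), {n : ℕ | (n : ℝ) ≤ B ∧ p n}.Finite := by
    intro B p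
    apply (Set.finite_le_nat ⌊B⌋₊).subset
    intro n hn
    exact Nat.le_floor hn.1
  constructor
  · refine ⟨C, c, X₀, hc0, ?_⟩
    intro X Y hX hY1 hY2
    refine (h1 X Y hX hY1 hY2).trans ?_
    have hsub : {n : ℕ | X ≤ n ∧ (n : ℝ) ≤ X + Y ∧ n % 8 = r % 8 ∧ Squarefree n ∧ Squarefree (n + h) ∧
        Pool.Agent.CNC.CongE n ∧ Pool.Agent.CNC.CongE (n + h)} ⊆
        {n : ℕ | X ≤ n ∧ (n : ℝ) ≤ X + Y ∧ n % 8 = r ∧ Good n ∧ Good (n + h)} := by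
      rintro n ⟨g1, g2, g3, g4, g5, g6, g7⟩
      exact ⟨g1, g2, hgood n g3 g4 g5 g6 g7⟩
    have hf : {n : ℕ | X ≤ n ∧ (n : ℝ) ≤ X + Y ∧ n % 8 = r ∧ Good n ∧ Good (n + h)}.Finite :=
      (hfin (X + Y) (fun _ => True)).subset (fun n hn => ⟨hn.2.1, trivial⟩)
    exact_mod_cast Set.ncard_le_ncard hsub hf
  · refine ⟨G, ?_⟩
    intro ε hε
    obtain ⟨R, hR, c', X₁, hc', h3⟩ := h2 ε hε
    refine ⟨R, hR, c', X₁, hc', ?_⟩
    intro X Y hX hY1 hY2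
    refine (h3 X Y hX hY1 hY2).trans ?_
    have hsub : {n : ℕ | X ≤ n ∧ (n : ℝ) ≤ X + Y ∧ n % 8 = r % 8 ∧ Squarefree n ∧ Squarefree (n + h) ∧
        Pool.Agent.CNC.CongE n ∧ Pool.Agent.CNC.CongE (n + h) ∧ Pool.Agent.CNC.APG G R X n ∧
        Pool.Agent.CNC.APG G R X (n + h)} ⊆
        {n : ℕ | X ≤ n ∧ (n : ℝ) ≤ X + Y ∧ n % 8 = r ∧ Good n ∧ Good (n + h) ∧
            AlmostPrime G R X n ∧ AlmostPrime G R X (n + h)} := by
      rintro n ⟨g1, g2, g3, g4, g5, g6, g7, g8, g9⟩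
      obtain ⟨k1, k2, k3⟩ := hgood n g3 g4 g5 g6 g7
      exact ⟨g1, g2, k1, k2, k3, g8, g9⟩
    have hf : {n : ℕ | X ≤ n ∧ (n : ℝ) ≤ X + Y ∧ n % 8 = r ∧ Good n ∧ Good (n + h) ∧
            AlmostPrime G R X n ∧ AlmostPrime G R X (n + h)}.Finite :=
      (hfin (X + Y) (fun _ => True)).subset (fun n hn => ⟨hn.2.1, trivial⟩)
    exact_mod_cast Set.ncard_le_ncard hsub hf

end Pool.Agent.Results.MP_8efaaa_nt.GivenDifference
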