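import Pool.Agent.Q250.CB.Both

set_option autoImplicit false

/-!
# Values of polynomials at squarefree congruent numbers modulo one

Let `d ≥ 1`. There is `A` such that for all `M ≥ 1` and all squarefree `k` (`k ≡ 5, 6, 7` modulo `8`) the following holds. Let `P` be a real
polynomial of degree at most `d` with coefficient `α` of `x ^ d`, `X ≥ 1` and `0 < ε ≤ 1`. Either `α` is within
`C / (q ε ^ A X ^ d)` of a fraction `a / q` with `q ≤ C / ε ^ A`, or at least `c ε X ^ (1/2 - η)` squarefree congruent numbers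
`n ≤ X`, `n ≡ k` modulo `8 M`, have `P n` within `ε` of an integer. If a coefficient of `P` other than the constant one is
irrational then infinitely many of them have `P n` within `n ^ (-δ)` of an integer, with `δ > 0` depending only on `d`.

Proof. Let `W` be a multiple of `2 M k` and of all small primes, `t` a prime, `v = k W ^ 2 t ^ 2` and `u ≡ 1` modulo `W`,
`u > v`. The number `n = k u (u ^ 2 - v ^ 2)` is congruent and `≡ k` modulo `W`. A trigonometric minorant of degree `2 L`,
`L` about `1 / ε`, is summed over the values `P n`, where `u` runs through about `X ^ (1/3)` values. The `u` for which `n` is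
not squarefree lie in residue classes modulo `p ^ 2`; for `p` up to `480 L` the minorant is replaced by `20 |D_L| ^ 2`, `D_L` the
Dirichlet kernel, and summed over each class, for larger `p` they are counted. If one of the exponential sums is large,
the inverse theorem for Weyl sums yields the fraction `a / q`; the leading coefficient does not depend on `t`. The primes `t`
up to `X ^ (1/6)` and the divisor bound give the exponent `1/2 - η`.
-/

namespace Pool.Agent.Results.MP_8efaaa_nt.ValuesOfPolynomials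

open Polynomial

/-- `x² + n y² = z²`, `x² - n y² = t²` is solvable in positive integers. -/
def Congruent (n : ℕ) : Prop :=
  ∃ x y z t : ℕ, 0 < x ∧ 0 < y ∧ 0 < z ∧ 0 < t ∧ x ^ 2 + n * y ^ 2 = z ^ 2 ∧
    x ^ 2 = n * y ^ 2 + t ^ 2

lemma congruent_of (n : ℕ) (h : Pool.Agent.Q148.CN.Cong n) : Congruent n := by
  obtain ⟨a, b, c, ha, hb, hc, h1, h2⟩ := h
  -- common denominator
  obtain ⟨A, B, C, D, hA, hB, hC, hD, eA, eB, eC⟩ : ∃ A B C D : ℕ, 0 < A ∧ 0 < B ∧ 0 < C ∧
      0 < D ∧ a = (A : ℚ) / D ∧ b = (B : ℚ) / D ∧ c = (C : ℚ) / D := by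
    have na : (0 : ℤ) < a.num := Rat.num_pos.2 ha
    have nb : (0 : ℤ) < b.num := Rat.num_pos.2 hb
    have nc : (0 : ℤ) < c.num := Rat.num_pos.2 hc
    have ea : ((a.num.natAbs : ℕ) : ℚ) = a.num := by
      rw [Nat.cast_natAbs, abs_of_pos na]
    have eb : ((b.num.natAbs : ℕ) : ℚ) = b.num := by
      rw [Nat.cast_natAbs, abs_of_pos nb]
    have ec : ((c.num.natAbs : ℕ) : ℚ) = c.num := by
      rw [Nat.cast_natAbs, abs_of_pos nc]
    have da : (a.den : ℚ) ≠ 0 := by exact_mod_cast a.den_nz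
    have db : (b.den : ℚ) ≠ 0 := by exact_mod_cast b.den_nz
    have dc : (c.den : ℚ) ≠ 0 := by exact_mod_cast c.den_nz
    have qa := Rat.num_div_den a
    have qb := Rat.num_div_den b
    have qc := Rat.num_div_den c
    refine ⟨a.num.natAbs * (b.den * c.den), b.num.natAbs * (a.den * c.den),
      c.num.natAbs * (a.den * b.den), a.den * b.den * c.den, ?_, ?_, ?_, ?_, ?_, ?_, ?_⟩
    · have := a.pos; have := b.pos; have := c.pos
      have : 0 < a.num.natAbs := by omega
      positivity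
    · have := a.pos; have := b.pos; have := c.pos
      have : 0 < b.num.natAbs := by omega
      positivity
    · have := a.pos; have := b.pos; have := c.pos
      have : 0 < c.num.natAbs := by omega
      positivity
    · have := a.pos; have := b.pos; have := c.pos
      positivity
    · push_cast
      rw [ea]
      nth_rewrite 1 [← qa]
      field_simp
    · push_cast
      rw [eb]
      nth_rewrite 1 [← qb]
      field_simp
    · push_cast
      rw [ec]
      nth_rewrite 1 [← qc]
      field_simp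
  have hDq : (D : ℚ) ≠ 0 := by positivity
  rw [eA, eB, eC] at h1
  rw [eA, eB] at h2
  have g1 : A ^ 2 + B ^ 2 = C ^ 2 := by
    have : (A : ℚ) ^ 2 + (B : ℚ) ^ 2 = (C : ℚ) ^ 2 := by
      field_simp at h1
      exact h1
    exact_mod_cast this
  have g2 : 2 * n * D ^ 2 = A * B := by
    have : 2 * (n : ℚ) * (D : ℚ) ^ 2 = A * B := by
      field_simp at h2
      linarith
    exact_mod_cast this
  have hne : A ≠ B := by
    intro hAB
    rw [hAB] at g1
    have g3 : (2 : ℕ) * B ^ 2 = C ^ 2 := by omega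
    have h4 : Irrational (Real.sqrt 2) := irrational_sqrt_two
    apply h4
    refine ⟨(C : ℚ) / B, ?_⟩
    have hB' : (B : ℝ) ≠ 0 := by positivity
    push_cast
    symm
    rw [Real.sqrt_eq_iff_mul_self_eq (by norm_num) (by positivity)]
    have : (2 : ℝ) * (B : ℝ) ^ 2 = (C : ℝ) ^ 2 := by exact_mod_cast g3
    field_simp
    linarith
  rcases lt_or_gt_of_ne hne with hlt | hlt
  · obtain ⟨s, rfl⟩ := Nat.exists_eq_add_of_lt hlt
    refine ⟨C, 2 * D, 2 * A + s + 1, s + 1, hC, by positivity, by positivity, by positivity, ?_, ?_⟩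
    · nlinarith
    · nlinarith
  · obtain ⟨s, rfl⟩ := Nat.exists_eq_add_of_lt hlt
    refine ⟨C, 2 * D, 2 * B + s + 1, s + 1, hC, by positivity, by positivity, by positivity, ?_, ?_⟩
    · nlinarith
    · nlinarith

/-- **Values of polynomials at congruent numbers of the classes `5, 6, 7` modulo `8`.** -/
theorem result (d : ℕ) (hd : 1 ≤ d) : ∃ A : ℕ, ∃ δ : ℝ, 0 < δ ∧ ∀ M : ℕ, 0 < M → ∀ k : ℕ, Squarefree k →
    (k % 8 = 5 ∨ k % 8 = 6 ∨ k % 8 = 7) →
    (∀ η : ℝ, 0 < η → ∃ c C : ℝ, 0 < c ∧ 0 < C ∧ ∀ P : ℝ[X], P.natDegree ≤ d →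
      ∀ X ε : ℝ, 1 ≤ X → 0 < ε → ε ≤ 1 →
      (∃ q : ℕ, 1 ≤ q ∧ (q : ℝ) ≤ C / ε ^ A ∧
        ∃ a : ℤ, |q * P.coeff d - a| ≤ C / (ε ^ A * X ^ d)) ∨
      c * ε * X ^ (1 / 2 - η) ≤ ({n : ℕ | (n : ℝ) ≤ X ∧ Squarefree n ∧ n ≡ k [MOD 8 * M] ∧ Congruent n ∧
        ∃ m : ℤ, |P.eval (n : ℝ) - m| < ε}.ncard : ℝ)) ∧
    (∀ P : ℝ[X], P.natDegree ≤ d → (∃ i, 1 ≤ i ∧ Irrational (P.coeff i)) →
      {n : ℕ | Squarefree n ∧ n ≡ k [MOD 8 * M] ∧ Congruent n ∧
        ∃ m : ℤ, |P.eval (n : ℝ) - m| < (n : ℝ) ^ (-δ)}.Infinite) :=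
  Pool.Agent.Q250.CB.transport d hd Congruent (fun k => k % 8 = 5 ∨ k % 8 = 6 ∨ k % 8 = 7) 8 (by norm_num)
    (fun n _ _ _ h => congruent_of n h)

end Pool.Agent.Results.MP_8efaaa_nt.ValuesOfPolynomials
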